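import Pool.Agent.K6.H31.WI.Approx

/-!
# Weak invertibility in `E^q(μ)` does not imply weak invertibility in `E^p(μ)`, `q < p`

There are a symmetric measure `μ` on the closed unit disc (a sum of multiples of the arc length
measures on circles `|z| = r_m`) and a function `f ∈ E^2(μ)` which is weakly invertible in `E^q(μ)` for
every `q < 2` but not in `E^2(μ)`.

Idea. Let `f = exp (lim Q_m)` where `Re Q_m ≤ T_m`, and `T_m - Re Q_m = (T_m - Re Q_{m-1}) K_N(z^k)` on
the unit circle, `K_N` the Fejer kernel, with `k`, `N` large. So `|f|` is nearly `e^{T_m}` on two thirds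
of the circle `|z| = r_m`, where the mass is `c_m = (9/10)^m e^{-2 T_m}`. If `‖P f‖ ≤ C` in `E^2(μ)`, `P` a
polynomial, then `P` is controlled on these parts of the circles, the remaining parts have harmonic
measure `< 4/5` from the points of the previous circle, and it follows that the mean of `|P|²` over
`|z| = r_m` is `O((10/9)^m)`, which is much smaller than the mean of `|f|⁻²`. If `T_m` grows fast, then
`f exp (-Q_n) → 1` in `E^q(μ)` for all `q < 2`.
-/

set_option autoImplicit false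

open MeasureTheory Metric Set Filter Topology
open scoped ENNReal

namespace Pool.Agent.Results.MP_d61770_an.CounterexampleHilbert

/-- The measure `dμ(r, θ) = (2π)⁻¹ dν(r) dθ` in polar coordinates: the image of the product of `ν` and
of `(2π)⁻¹ dθ` on `(0, 2π]` under `(r, θ) ↦ r e^{iθ}`. -/
noncomputable def polarMeasure (ν : Measure ℝ) : Measure ℂ :=
  Measure.map (fun x : ℝ × ℝ => (x.1 : ℂ) * Complex.exp (x.2 * Complex.I))
    (ν.prod (ENNReal.ofReal (2 * Real.pi)⁻¹ • (volume : Measure ℝ).restrict (Ioc 0 (2 * Real.pi))))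

/-- Symmetric measures on the closed unit disc: `dμ = (2π)⁻¹ dν dθ` with `ν` a finite Borel measure on
`[0, 1]` such that `ν {0} = 0` and `ν [r, 1] > 0` for all `0 ≤ r < 1`. -/
def IsSymmetric (μ : Measure ℂ) : Prop :=
  ∃ ν : Measure ℝ, IsFiniteMeasure ν ∧ ν (Icc 0 1)ᶜ = 0 ∧ ν {0} = 0 ∧
    (∀ r : ℝ, 0 ≤ r → r < 1 → 0 < ν (Icc r 1)) ∧ μ = polarMeasure ν

/-- `M_p(r; f; μ) = (∫ |f(r w)|^p dμ(w))^{1/p}`, the integral over the closed unit disc. -/
noncomputable def M (p : ℝ) (μ : Measure ℂ) (r : ℝ) (f : ℂ → ℂ) : ℝ≥0∞ :=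
  (∫⁻ w in closedBall (0 : ℂ) 1, ‖f ((r : ℂ) * w)‖ₑ ^ p ∂μ) ^ (1 / p)

/-- `‖f‖_{p, μ} = sup_{0 ≤ r < 1} M_p(r; f; μ)`. -/
noncomputable def pnorm (p : ℝ) (μ : Measure ℂ) (f : ℂ → ℂ) : ℝ≥0∞ :=
  ⨆ r ∈ Ico (0 : ℝ) 1, M p μ r f

/-- `f ∈ E^p(μ)`: `f` is analytic in the open unit disc and `‖f‖_{p, μ} < ∞`. -/
def MemE (p : ℝ) (μ : Measure ℂ) (f : ℂ → ℂ) : Prop :=
  DifferentiableOn ℂ f (ball 0 1) ∧ pnorm p μ f < ⊤

/-- `f` is weakly invertible in `E^p(μ)`: `f ∈ E^p(μ)` and there are polynomials `P_n` with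
`‖P_n f - 1‖_{p, μ} → 0`. -/
def WeaklyInvertible (p : ℝ) (μ : Measure ℂ) (f : ℂ → ℂ) : Prop :=
  MemE p μ f ∧ ∃ P : ℕ → Polynomial ℂ,
    Tendsto (fun n => pnorm p μ (fun z => (P n).eval z * f z - 1)) atTop (𝓝 0)

open Pool.Agent.K6.H31.WI

/-- the normalised arc length -/
noncomputable def U : Measure ℝ :=
  ENNReal.ofReal (2 * Real.pi)⁻¹ • (volume : Measure ℝ).restrict (Ioc 0 (2 * Real.pi))

theorem U_univ : U univ = 1 := by
  unfold U
  rw [Measure.smul_apply, Measure.restrict_apply_univ, Real.volume_Ioc, smul_eq_mul,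
    ← ENNReal.ofReal_mul (by positivity), sub_zero, inv_mul_cancel₀ (by positivity),
    ENNReal.ofReal_one]

instance : IsProbabilityMeasure U := ⟨U_univ⟩

/-- the measure `ν` of the example -/
noncomputable def nu : Measure ℝ :=
  Measure.sum fun m : ℕ => ENNReal.ofReal (cc (m + 1)) • Measure.dirac ((stg (m + 1)).r)

/-- the measure `μ` of the example -/
noncomputable def mu : Measure ℂ := polarMeasure nu

theorem summable_cc : Summable fun m : ℕ => cc (m + 1) :=
  Summable.of_nonneg_of_le (fun m => (cc_pos _).le) cc_le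
    ((summable_nat_add_iff 1).2 (summable_geometric_of_lt_one (by norm_num) (by norm_num)))

theorem nu_apply (s : Set ℝ) (hs : MeasurableSet s) :
    nu s = ∑' m : ℕ, ENNReal.ofReal (cc (m + 1)) * s.indicator 1 ((stg (m + 1)).r) := by
  unfold nu
  rw [Measure.sum_apply _ hs]
  simp only [Measure.smul_apply, smul_eq_mul, Measure.dirac_apply' _ hs]

instance : IsFiniteMeasure nu := by
  constructor
  rw [nu_apply _ MeasurableSet.univ]
  simp only [indicator_univ, Pi.one_apply, mul_one]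
  rw [← ENNReal.ofReal_tsum_of_nonneg (fun m => (cc_pos _).le) summable_cc]
  exact ENNReal.ofReal_lt_top

theorem mu_symmetric : IsSymmetric mu := by
  refine ⟨nu, inferInstance, ?_, ?_, ?_, rfl⟩
  · rw [nu_apply _ measurableSet_Icc.compl, ENNReal.tsum_eq_zero]
    intro m
    have : (stg (m + 1)).r ∈ Icc (0 : ℝ) 1 := ⟨(r_pos _).le, (r_lt_one _).le⟩
    rw [indicator_of_notMem (by simpa using this), mul_zero]
  · rw [nu_apply _ (measurableSet_singleton 0), ENNReal.tsum_eq_zero]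
    intro m
    have : (stg (m + 1)).r ≠ 0 := (r_pos _).ne'
    rw [indicator_of_notMem (by simpa using this), mul_zero]
  · intro r _ hr1
    obtain ⟨m, hm⟩ := exists_r_gt hr1
    have hm' : (stg (m + 1)).r ∈ Icc r 1 := ⟨(hm.trans (r_lt_succ m)).le, (r_lt_one _).le⟩
    rw [nu_apply _ measurableSet_Icc]
    refine lt_of_lt_of_le ?_ (ENNReal.le_tsum m)
    rw [indicator_of_mem hm', Pi.one_apply, mul_one]
    exact ENNReal.ofReal_pos.2 (cc_pos _)

theorem lint_mu {g : ℂ → ℝ≥0∞} (hg : Measurable g) :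
    ∫⁻ w, g w ∂mu = ∑' m : ℕ, ENNReal.ofReal (cc (m + 1)) *
      ∫⁻ θ, g (((stg (m + 1)).r : ℂ) * Complex.exp (θ * Complex.I)) ∂U := by
  have hmap : Measurable fun x : ℝ × ℝ => (x.1 : ℂ) * Complex.exp (x.2 * Complex.I) := by
    fun_prop
  unfold mu polarMeasure
  rw [lintegral_map hg hmap]
  change ∫⁻ x : ℝ × ℝ, g ((x.1 : ℂ) * Complex.exp (x.2 * Complex.I)) ∂(nu.prod U) = _
  rw [lintegral_prod (fun x : ℝ × ℝ => g ((x.1 : ℂ) * Complex.exp (x.2 * Complex.I)))
    (hg.comp hmap).aemeasurable]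
  unfold nu
  rw [lintegral_sum_measure]
  congr 1
  funext m
  rw [lintegral_smul_measure, lintegral_dirac' _ ?_, smul_eq_mul]
  exact Measurable.lintegral_prod_right' (f := fun x : ℝ × ℝ =>
    g ((x.1 : ℂ) * Complex.exp (x.2 * Complex.I))) (hg.comp hmap)

/-- The integrals over the closed disc for functions continuous in the open disc. -/
theorem lint_F {F : ℂ → ℂ} (hF : ContinuousOn F (ball 0 1)) {p : ℝ} (hp : 0 < p) {r : ℝ}
    (hr : r ∈ Ico (0 : ℝ) 1) :
    ∫⁻ w in closedBall (0 : ℂ) 1, ‖F ((r : ℂ) * w)‖ₑ ^ p ∂mu =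
      ∑' m : ℕ, ENNReal.ofReal (cc (m + 1)) *
        ∫⁻ θ, ‖F ((r : ℂ) * (((stg (m + 1)).r : ℂ) * Complex.exp (θ * Complex.I)))‖ₑ ^ p ∂U := by
  have hmem : ∀ w : ℂ, w ∈ closedBall (0 : ℂ) 1 → (r : ℂ) * w ∈ ball (0 : ℂ) 1 := by
    intro w hw
    have h1 : ‖w‖ ≤ 1 := by simpa using hw
    rw [mem_ball_zero_iff, norm_mul, Complex.norm_real, Real.norm_of_nonneg hr.1]
    calc r * ‖w‖ ≤ r * 1 := mul_le_mul_of_nonneg_left h1 hr.1
      _ < 1 := by rw [mul_one]; exact hr.2
  have hc : ContinuousOn (fun w : ℂ => F ((r : ℂ) * w)) (closedBall 0 1) :=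
    hF.comp (by fun_prop) hmem
  have hm : Measurable ((closedBall (0 : ℂ) 1).indicator fun w => ‖F ((r : ℂ) * w)‖ₑ ^ p) := by
    have h1 : Measurable ((closedBall (0 : ℂ) 1).indicator fun w => F ((r : ℂ) * w)) := by
      classical
      have := hc.measurable_piecewise (g := fun _ : ℂ => (0 : ℂ)) continuousOn_const
        (isClosed_closedBall.measurableSet)
      convert this using 1
      funext w
      by_cases hw : w ∈ closedBall (0 : ℂ) 1
      · rw [indicator_of_mem hw, piecewise_eq_of_mem _ _ _ hw]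
      · rw [indicator_of_notMem hw, piecewise_eq_of_notMem _ _ _ hw]
    have h2 : ((closedBall (0 : ℂ) 1).indicator fun w => ‖F ((r : ℂ) * w)‖ₑ ^ p) =
        fun w => ‖(closedBall (0 : ℂ) 1).indicator (fun w => F ((r : ℂ) * w)) w‖ₑ ^ p := by
      funext w
      by_cases hw : w ∈ closedBall (0 : ℂ) 1
      · rw [indicator_of_mem hw, indicator_of_mem hw]
      · rw [indicator_of_notMem hw, indicator_of_notMem hw]
        simp [ENNReal.zero_rpow_of_pos hp]
    rw [h2]
    exact h1.enorm.pow_const p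
  rw [← lintegral_indicator isClosed_closedBall.measurableSet, lint_mu hm]
  congr 1
  funext m
  congr 1
  refine lintegral_congr fun θ => ?_
  rw [indicator_of_mem]
  rw [mem_closedBall_zero_iff, norm_mul, Complex.norm_exp_ofReal_mul_I, mul_one, Complex.norm_real,
    Real.norm_of_nonneg (r_pos _).le]
  exact (r_lt_one _).le

/-- Upper bound for the norm. -/
theorem pnorm_le {F : ℂ → ℂ} (hF : ContinuousOn F (ball 0 1)) {p : ℝ} (hp : 0 < p) {b : ℕ → ℝ}
    (hb0 : ∀ m, 0 ≤ b m) (hb : Summable b)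
    (h : ∀ (m : ℕ) (z : ℂ), ‖z‖ ≤ (stg (m + 1)).r → cc (m + 1) * ‖F z‖ ^ p ≤ b m) :
    pnorm p mu F ≤ ENNReal.ofReal (∑' m, b m) ^ (1 / p) := by
  unfold pnorm
  refine iSup₂_le fun r hr => ?_
  unfold M
  rw [lint_F hF hp hr]
  apply ENNReal.rpow_le_rpow _ (by positivity)
  rw [ENNReal.ofReal_tsum_of_nonneg hb0 hb]
  refine ENNReal.tsum_le_tsum fun m => ?_
  rw [← lintegral_const_mul' _ _ ENNReal.ofReal_ne_top]
  calc ∫⁻ θ, ENNReal.ofReal (cc (m + 1)) *
        ‖F ((r : ℂ) * (((stg (m + 1)).r : ℂ) * Complex.exp (θ * Complex.I)))‖ₑ ^ p ∂U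
      ≤ ∫⁻ _, ENNReal.ofReal (b m) ∂U := by
        refine lintegral_mono fun θ => ?_
        set z : ℂ := (r : ℂ) * (((stg (m + 1)).r : ℂ) * Complex.exp (θ * Complex.I)) with hz
        have hz' : ‖z‖ ≤ (stg (m + 1)).r := by
          rw [hz, norm_mul, norm_mul, Complex.norm_exp_ofReal_mul_I, mul_one, Complex.norm_real,
            Complex.norm_real, Real.norm_of_nonneg hr.1, Real.norm_of_nonneg (r_pos _).le]
          exact mul_le_of_le_one_left (r_pos _).le hr.2.le
        have h1 : ‖F z‖ₑ ^ p = ENNReal.ofReal (‖F z‖ ^ p) := by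
          rw [← ofReal_norm, ENNReal.ofReal_rpow_of_nonneg (norm_nonneg _) hp.le]
        rw [h1, ← ENNReal.ofReal_mul (cc_pos _).le]
        exact ENNReal.ofReal_le_ofReal (h m z hz')
    _ = ENNReal.ofReal (b m) := by simp

theorem f_cont : ContinuousOn f (ball 0 1) := f_diff.continuousOn

theorem f_memE : MemE 2 mu f := by
  refine ⟨f_diff, ?_⟩
  have h1 := pnorm_le f_cont (p := 2) (by norm_num)
    (b := fun m => Real.exp 2 * (9 / 10) ^ (m + 1)) (fun m => by positivity)
    (((summable_nat_add_iff 1).2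
      (summable_geometric_of_lt_one (by norm_num) (by norm_num))).mul_left _) ?_
  · refine lt_of_le_of_lt h1 ?_
    exact ENNReal.rpow_lt_top_of_nonneg (by norm_num) ENNReal.ofReal_ne_top
  · intro m z hz
    have h2 := f_le hz
    have h3 : ‖f z‖ ^ (2 : ℝ) ≤ Real.exp (2 * ((stg (m + 1)).T + 1)) := by
      rw [show (2 : ℝ) = ((2 : ℕ) : ℝ) by norm_num, Real.rpow_natCast, Real.exp_nat_mul]
      exact pow_le_pow_left₀ (norm_nonneg _) h2 2
    calc cc (m + 1) * ‖f z‖ ^ (2 : ℝ) ≤ cc (m + 1) * Real.exp (2 * ((stg (m + 1)).T + 1)) :=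
          mul_le_mul_of_nonneg_left h3 (cc_pos _).le
      _ = Real.exp 2 * (9 / 10) ^ (m + 1) := by
        unfold cc
        rw [mul_assoc, ← Real.exp_add, mul_comm]
        congr 2
        ring

theorem pnorm_mono_exp {q : ℝ} (hq : 0 < q) (hq2 : q < 2) : MemE q mu f := by
  refine ⟨f_diff, ?_⟩
  have h1 := pnorm_le f_cont (p := q) hq
    (b := fun m => Real.exp 2 * (9 / 10) ^ (m + 1)) (fun m => by positivity)
    (((summable_nat_add_iff 1).2
      (summable_geometric_of_lt_one (by norm_num) (by norm_num))).mul_left _) ?_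
  · refine lt_of_le_of_lt h1 ?_
    exact ENNReal.rpow_lt_top_of_nonneg (by positivity) ENNReal.ofReal_ne_top
  · intro m z hz
    have h2 := f_le hz
    have hT := (inv (m + 1)).T0
    have h3 : ‖f z‖ ^ q ≤ Real.exp (2 * ((stg (m + 1)).T + 1)) := by
      calc ‖f z‖ ^ q ≤ Real.exp ((stg (m + 1)).T + 1) ^ q :=
            Real.rpow_le_rpow (norm_nonneg _) h2 hq.le
        _ = Real.exp (((stg (m + 1)).T + 1) * q) := by rw [← Real.exp_mul]
        _ ≤ _ := Real.exp_le_exp.2 (by nlinarith)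
    calc cc (m + 1) * ‖f z‖ ^ q ≤ cc (m + 1) * Real.exp (2 * ((stg (m + 1)).T + 1)) :=
          mul_le_mul_of_nonneg_left h3 (cc_pos _).le
      _ = Real.exp 2 * (9 / 10) ^ (m + 1) := by
        unfold cc
        rw [mul_assoc, ← Real.exp_add, mul_comm]
        congr 2
        ring

theorem f_weak {q : ℝ} (hq : 0 < q) (hq2 : q < 2) : WeaklyInvertible q mu f := by
  refine ⟨pnorm_mono_exp hq hq2, Pn, ?_⟩
  have hlim : Tendsto (fun n => ENNReal.ofReal (∑' m, bnd q n m) ^ (1 / q)) atTop (𝓝 0) := by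
    have h1 := ENNReal.tendsto_ofReal (bnd_tendsto hq hq2)
    rw [ENNReal.ofReal_zero] at h1
    have h2 := (ENNReal.continuous_rpow_const (y := 1 / q)).tendsto 0
    rw [ENNReal.zero_rpow_of_pos (by positivity)] at h2
    exact h2.comp h1
  have h1 : Tendsto (fun n : ℕ => (2 - q) * ((n : ℝ) + 1)) atTop atTop := by
    apply Tendsto.const_mul_atTop (by linarith)
    exact tendsto_atTop_add_const_right _ _ tendsto_natCast_atTop_atTop
  refine tendsto_of_tendsto_of_tendsto_of_le_of_le' tendsto_const_nhds hlim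
    (Eventually.of_forall fun _ => bot_le) ?_
  filter_upwards [h1.eventually_ge_atTop q] with n hn
  refine pnorm_le ?_ hq (bnd_nonneg q n) (bnd_summable hq hq2 hn) fun m z hz => le_bnd hq n m hz
  exact ((Polynomial.continuous _).continuousOn.mul f_cont).sub continuousOn_const

theorem lint_circle {G : ℂ → ℂ} {ρ : ℝ} (hρ : 0 ≤ ρ) (hρ1 : ρ < 1)
    (hG : ContinuousOn G (ball 0 1)) :
    ∫⁻ θ, ‖G ((ρ : ℂ) * Complex.exp (θ * Complex.I))‖ₑ ^ (2 : ℝ) ∂U =
      ENNReal.ofReal (Real.circleAverage (fun z => ‖G z‖ ^ 2) 0 ρ) := by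
  have hmem : ∀ θ : ℝ, (ρ : ℂ) * Complex.exp (θ * Complex.I) ∈ ball (0 : ℂ) 1 := by
    intro θ
    rw [mem_ball_zero_iff, norm_mul, Complex.norm_exp_ofReal_mul_I, mul_one, Complex.norm_real,
      Real.norm_of_nonneg hρ]
    exact hρ1
  have hc : Continuous fun θ : ℝ => ‖G ((ρ : ℂ) * Complex.exp (θ * Complex.I))‖ ^ 2 := by
    have : Continuous fun θ : ℝ => G ((ρ : ℂ) * Complex.exp (θ * Complex.I)) :=
      hG.comp_continuous (by fun_prop) hmem
    exact this.norm.pow 2
  rw [Real.circleAverage_def, smul_eq_mul, ENNReal.ofReal_mul (by positivity),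
    intervalIntegral.integral_of_le (by positivity),
    ofReal_integral_eq_lintegral_ofReal]
  · unfold U
    rw [lintegral_smul_measure, smul_eq_mul]
    congr 1
    refine lintegral_congr fun θ => ?_
    rw [show (2 : ℝ) = ((2 : ℕ) : ℝ) by norm_num, ENNReal.rpow_natCast, ← ofReal_norm,
      ← ENNReal.ofReal_pow (norm_nonneg _)]
    simp [circleMap]
  · have : (fun θ : ℝ => ‖G (circleMap 0 ρ θ)‖ ^ 2) =
        fun θ : ℝ => ‖G ((ρ : ℂ) * Complex.exp (θ * Complex.I))‖ ^ 2 := by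
      funext θ
      simp [circleMap]
    rw [this]
    exact (hc.integrableOn_Icc (a := 0) (b := 2 * Real.pi)).mono_set Ioc_subset_Icc_self
  · exact Eventually.of_forall fun θ => by positivity

/-- Lower bound for the norm. -/
theorem avg_le {G : ℂ → ℂ} (hG : ContinuousOn G (ball 0 1)) {δ : ℝ} (hδ : 0 ≤ δ)
    (h : pnorm 2 mu G ≤ ENNReal.ofReal δ) (m : ℕ) :
    cc (m + 1) * Real.circleAverage (fun z => ‖G z‖ ^ 2) 0 (stg (m + 1)).r ≤ δ ^ 2 := by
  set R := (stg (m + 1)).r with hR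
  have hR0 : 0 < R := r_pos _
  have hR1 : R < 1 := r_lt_one _
  have h1 : ∀ r ∈ Ico (0 : ℝ) 1,
      cc (m + 1) * Real.circleAverage (fun z => ‖G z‖ ^ 2) 0 (r * R) ≤ δ ^ 2 := by
    intro r hr
    have h2 : M 2 mu r G ≤ ENNReal.ofReal δ :=
      (le_iSup₂ (f := fun (r : ℝ) (_ : r ∈ Ico (0 : ℝ) 1) => M 2 mu r G) r hr).trans h
    unfold M at h2
    have h3 := ENNReal.rpow_le_rpow h2 (show (0 : ℝ) ≤ 2 by norm_num)
    rw [← ENNReal.rpow_mul] at h3
    norm_num at h3
    rw [← ENNReal.ofReal_pow hδ] at h3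
    have h3' : ∫⁻ w in closedBall (0 : ℂ) 1, ‖G ((r : ℂ) * w)‖ₑ ^ (2 : ℝ) ∂mu ≤
        ENNReal.ofReal (δ ^ 2) := by
      refine le_trans (le_of_eq ?_) h3
      refine lintegral_congr fun w => ?_
      rw [show (2 : ℝ) = ((2 : ℕ) : ℝ) by norm_num, ENNReal.rpow_natCast]
    rw [lint_F hG (by norm_num) hr] at h3'
    have h4 := (ENNReal.le_tsum m).trans h3'
    have h5 : ∀ θ : ℝ, (r : ℂ) * ((R : ℂ) * Complex.exp (θ * Complex.I)) =
        ((r * R : ℝ) : ℂ) * Complex.exp (θ * Complex.I) := by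
      intro θ
      push_cast
      ring
    simp only [← hR, h5] at h4
    rw [lint_circle (mul_nonneg hr.1 hR0.le) (by nlinarith [hr.1, hr.2]) hG,
      ← ENNReal.ofReal_mul (cc_pos _).le] at h4
    exact (ENNReal.ofReal_le_ofReal_iff (sq_nonneg δ)).1 h4
  have hcont : ContinuousOn (Real.circleAverage (fun z => ‖G z‖ ^ 2) 0) (Icc 0 R) := by
    apply Real.ContinuousOn.circleAverage
    · apply ContinuousOn.pow
      apply ContinuousOn.norm
      refine hG.mono fun z hz => ?_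
      have : ‖z‖ ≤ R := by
        have := hz.2
        simpa using this
      simpa using this.trans_lt hR1
    · intro r hr
      exact hr.1
  have hlim : Tendsto (fun r : ℝ => cc (m + 1) * Real.circleAverage (fun z => ‖G z‖ ^ 2) 0 (r * R))
      (𝓝[Ico 0 1] 1) (𝓝 (cc (m + 1) * Real.circleAverage (fun z => ‖G z‖ ^ 2) 0 R)) := by
    apply Tendsto.const_mul
    have h2 : Tendsto (Real.circleAverage (fun z => ‖G z‖ ^ 2) 0) (𝓝[Icc 0 R] R)
        (𝓝 (Real.circleAverage (fun z => ‖G z‖ ^ 2) 0 R)) := hcont R ⟨hR0.le, le_refl _⟩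
    refine h2.comp ?_
    apply tendsto_nhdsWithin_iff.2
    constructor
    · have : Tendsto (fun r : ℝ => r * R) (𝓝 1) (𝓝 (1 * R)) := tendsto_id.mul_const R
      rw [one_mul] at this
      exact this.mono_left nhdsWithin_le_nhds
    · filter_upwards [self_mem_nhdsWithin] with r hr
      exact ⟨mul_nonneg hr.1 hR0.le, mul_le_of_le_one_left hR0.le hr.2.le⟩
  have hne : (𝓝[Ico (0 : ℝ) 1] 1).NeBot := by
    have : (1 : ℝ) ∈ closure (Ico (0 : ℝ) 1) := by
      rw [closure_Ico (by norm_num)]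
      exact ⟨zero_le_one, le_refl _⟩
    exact mem_closure_iff_nhdsWithin_neBot.1 this
  refine le_of_tendsto hlim ?_
  filter_upwards [self_mem_nhdsWithin] with r hr
  exact h1 r hr

theorem f_not_weak : ¬ WeaklyInvertible 2 mu f := by
  rintro ⟨-, P, hP⟩
  -- a bound for the norms of `P_n f`
  obtain ⟨n, ε, hε, hcore⟩ := core 80
  have h0 : ∀ᶠ k in atTop, pnorm 2 mu (fun z => (P k).eval z * f z - 1) <
      ENNReal.ofReal (min 1 (Real.sqrt (cc (n + 1) * ε / 2))) := by
    refine hP.eventually (gt_mem_nhds ?_)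
    apply ENNReal.ofReal_pos.2
    have := cc_pos (n + 1)
    positivity
  obtain ⟨k, hk⟩ := h0.exists
  have hc1 : ContinuousOn (fun z => (P k).eval z * f z - 1) (ball 0 1) :=
    ((Polynomial.continuous _).continuousOn.mul f_cont).sub continuousOn_const
  have hc2 : ContinuousOn (fun z => (P k).eval z * f z) (ball 0 1) :=
    (Polynomial.continuous _).continuousOn.mul f_cont
  set δ : ℝ := min 1 (Real.sqrt (cc (n + 1) * ε / 2)) with hδ
  have hδ0 : 0 ≤ δ := le_min zero_le_one (Real.sqrt_nonneg _)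
  have hδ1 : δ ≤ 1 := min_le_left _ _
  have h1 := avg_le hc1 hδ0 hk.le
  have h2 := hcore (fun z => (P k).eval z) (Polynomial.differentiable _) ?_
  · have h3 := h1 n
    have h4 : δ ^ 2 ≤ cc (n + 1) * ε / 2 := by
      have h5 : δ ≤ Real.sqrt (cc (n + 1) * ε / 2) := min_le_right _ _
      calc δ ^ 2 ≤ Real.sqrt (cc (n + 1) * ε / 2) ^ 2 := pow_le_pow_left₀ hδ0 h5 2
        _ = _ := Real.sq_sqrt (by have := cc_pos (n + 1); positivity)
    have h6 : cc (n + 1) * ε ≤ cc (n + 1) *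
        Real.circleAverage (fun z => ‖(P k).eval z * f z - 1‖ ^ 2) 0 (stg (n + 1)).r :=
      mul_le_mul_of_nonneg_left h2 (cc_pos _).le
    have h7 : 0 < cc (n + 1) * ε := mul_pos (cc_pos _) hε
    linarith
  · intro m
    have h3 := h1 m
    have hsub : sphere (0 : ℂ) |(stg (m + 1)).r| ⊆ ball 0 1 := by
      intro z hz
      have h4 : ‖z‖ = |(stg (m + 1)).r| := by simpa using hz
      rw [abs_of_pos (r_pos _)] at h4
      simpa [h4] using r_lt_one (m + 1)
    have h4 : Real.circleAverage (fun z => ‖(P k).eval z * f z‖ ^ 2) 0 (stg (m + 1)).r ≤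
        Real.circleAverage (fun z => 2 * 1 + 2 * ‖(P k).eval z * f z - 1‖ ^ 2) 0
          (stg (m + 1)).r := by
      apply Real.circleAverage_mono
      · exact ((hc2.mono hsub).norm.pow 2).circleIntegrable'
      · exact (continuousOn_const.add (continuousOn_const.mul
          ((hc1.mono hsub).norm.pow 2))).circleIntegrable'
      · intro z _
        have h5 : ‖(P k).eval z * f z‖ ≤ ‖(P k).eval z * f z - 1‖ + 1 := by
          have := norm_add_le ((P k).eval z * f z - 1) 1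
          rwa [sub_add_cancel, norm_one] at this
        have h6 : ‖(P k).eval z * f z‖ ^ 2 ≤ (‖(P k).eval z * f z - 1‖ + 1) ^ 2 :=
          pow_le_pow_left₀ (norm_nonneg _) h5 2
        nlinarith [sq_nonneg (‖(P k).eval z * f z - 1‖ - 1)]
    rw [avg_lin (g₁ := fun _ => (1 : ℝ)) (g₂ := fun z => ‖(P k).eval z * f z - 1‖ ^ 2) 2 2
      continuousOn_const.circleIntegrable' ((hc1.mono hsub).norm.pow 2).circleIntegrable',
      Real.circleAverage_const] at h4
    have h5 : cc (m + 1) ≤ 1 := by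
      refine (cc_le m).trans ?_
      exact pow_le_one₀ (by norm_num) (by norm_num)
    have h6 := mul_le_mul_of_nonneg_left h4 (cc_pos (m + 1)).le
    have h7 : δ ^ 2 ≤ 1 := by nlinarith
    linarith

/-- **The answer to Q1 is negative.** There are a symmetric measure `μ` and a function `f ∈ E^2(μ)` which
is weakly invertible in `E^q(μ)` for all `0 < q < 2`, but not weakly invertible in `E^2(μ)`. -/
theorem result : ∃ (μ : Measure ℂ) (f : ℂ → ℂ), IsSymmetric μ ∧ MemE 2 μ f ∧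
    (∀ q : ℝ, 0 < q → q < 2 → WeaklyInvertible q μ f) ∧ ¬ WeaklyInvertible 2 μ f :=
  ⟨mu, f, mu_symmetric, f_memE, fun _ hq hq2 => f_weak hq hq2, f_not_weak⟩

end Pool.Agent.Results.MP_d61770_an.CounterexampleHilbert
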